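import Pool.Agent.N652.OM.Stm

/-!
# Project OM (helper652), leaf FCI (helper763)

Subgroups of finite index contain the elementary matrices of finite rank.
-/

set_option autoImplicit false

namespace Pool.Agent.N763.OMFCI

open Pool.Agent.N44.NS (el E3 single_sq)
open Pool.Agent.N652.OM

noncomputable section

theorem eu_apply (w w' : ℤ × Bool) (c : F) (v : Vc Bool) :
    eu w w' c v = Finsupp.single w (c * v w') := by
  rfl

theorem eu_mul_same (w w' u : ℤ × Bool) (c d : F) : eu w w' c * eu w' u d = eu w u (c * d) := by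
  refine LinearMap.ext fun v => ?_
  rw [Module.End.mul_apply, eu_apply, eu_apply, eu_apply, Finsupp.single_eq_same, mul_assoc]

theorem eu_mul_ne (w w' u u' : ℤ × Bool) (h : w' ≠ u) (c d : F) :
    eu w w' c * eu u u' d = 0 := by
  refine LinearMap.ext fun v => ?_
  rw [Module.End.mul_apply, eu_apply, eu_apply, Finsupp.single_eq_of_ne h, mul_zero,
    Finsupp.single_zero, LinearMap.zero_apply]

theorem eu_mem (b : Bool) (m n : ℤ) (c : F) : eu (m, b) (n, b) c ∈ RR b := by
  refine ⟨⟨0, n.natAbs + 1, ?_⟩, ?_, ?_⟩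
  · intro b' j hj
    have h1 : (j, b') ≠ (n, b) := by
      rintro h
      have h2 : j = n := congrArg Prod.fst h
      subst h2
      rw [Int.abs_eq_natAbs] at hj
      push_cast at hj
      omega
    rw [eu_apply, Finsupp.single_eq_of_ne h1.symm, mul_zero, Finsupp.single_zero]
    simp [sh]
  · intro j
    have h1 : (n, b) ≠ (j, !b) := by
      rintro h
      have h2 : b = !b := congrArg Prod.snd h
      cases b <;> simp at h2
    rw [eu_apply, Finsupp.single_eq_of_ne h1, mul_zero, Finsupp.single_zero]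
  · intro v j
    have h1 : (j, !b) ≠ (m, b) := by
      rintro h
      have h2 : (!b) = b := congrArg Prod.snd h
      cases b <;> simp at h2
    rw [eu_apply, Finsupp.single_eq_of_ne h1]

theorem single_mul_zero {i j k l : Fin 3} (h : j ≠ k) (a b : MM Bool) :
    Matrix.single i j a * Matrix.single k l b = 0 := by
  rw [Matrix.single_mul_single_of_ne _ _ _ _ h]

theorem el_mul {i j : Fin 3} (h : i ≠ j) (a b : MM Bool) :
    el i j h a * el i j h b = el i j h (a + b) := by
  apply Units.ext
  show (1 + Matrix.single i j a) * (1 + Matrix.single i j b) = 1 + Matrix.single i j (a + b)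
  rw [mul_add, mul_one, add_mul, one_mul, single_mul_zero h.symm, add_zero, Matrix.single_add]
  abel

theorem el_inv {i j : Fin 3} (h : i ≠ j) (a : MM Bool) : (el i j h a)⁻¹ = el i j h (-a) := by
  have h0 : a + -a = 0 := by
    refine LinearMap.ext fun v => ?_
    rw [LinearMap.add_apply, LinearMap.neg_apply, LinearMap.zero_apply, add_neg_cancel]
  rw [inv_eq_iff_mul_eq_one, el_mul, h0]
  apply Units.ext
  show 1 + Matrix.single i j (0 : MM Bool) = 1
  rw [Matrix.single_zero, add_zero]

theorem neg_eu_mul (w w' u u' : ℤ × Bool) (h : w' ≠ u) (c d : F) :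
    (-eu w w' c) * eu u u' d = 0 := by
  refine LinearMap.ext fun v => ?_
  rw [Module.End.mul_apply, LinearMap.neg_apply, eu_apply, eu_apply, Finsupp.single_eq_of_ne h,
    mul_zero, Finsupp.single_zero, LinearMap.zero_apply, neg_zero]

theorem el_comm {i j k : Fin 3} (hik : i ≠ k) (hkj : k ≠ j) (hij : i ≠ j) (a b : MM Bool) :
    el i k hik a * el k j hkj b * (el i k hik a)⁻¹ * (el k j hkj b)⁻¹ = el i j hij (a * b) := by
  have h : el i k hik a * el k j hkj b = el i j hij (a * b) * (el k j hkj b * el i k hik a) := by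
    apply Units.ext
    show (1 + Matrix.single i k a) * (1 + Matrix.single k j b) =
      (1 + Matrix.single i j (a * b)) * ((1 + Matrix.single k j b) * (1 + Matrix.single i k a))
    have h1 : Matrix.single k j b * Matrix.single i k a = 0 :=
      single_mul_zero hij.symm _ _
    have h2 : Matrix.single i j (a * b) * Matrix.single k j b = 0 :=
      single_mul_zero hkj.symm _ _
    have h3 : Matrix.single i j (a * b) * Matrix.single i k a = 0 :=
      single_mul_zero hij.symm _ _
    have h4 : Matrix.single i k a * Matrix.single k j b = Matrix.single i j (a * b) :=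
      Matrix.single_mul_single_same _ _ _ _ _
    simp only [mul_add, add_mul, one_mul, mul_one, h1, h2, h3, h4, add_zero]
    abel
  rw [h]
  group

theorem main : S_FCI := by
  intro b H hH i j hij m n c
  obtain ⟨k, hki, hkj⟩ : ∃ k : Fin 3, k ≠ i ∧ k ≠ j := by
    revert i j; decide
  have hN : (H.normalCore).FiniteIndex := Subgroup.finiteIndex_normalCore H
  have hfin : Finite (EE (RR b) ⧸ H.normalCore) := Subgroup.finite_quotient_of_finiteIndex
  have hx : ∀ r : ℤ, el i k hki.symm (eu (m, b) (r, b) c) ∈ EE (RR b) := fun r =>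
    Subgroup.subset_closure ⟨i, k, hki.symm, _, eu_mem b m r c, rfl⟩
  have hz : ∀ r : ℤ, el k j hkj (eu (r, b) (n, b) 1) ∈ EE (RR b) := fun r =>
    Subgroup.subset_closure ⟨k, j, hkj, _, eu_mem b r n 1, rfl⟩
  obtain ⟨r, r', hrr, he⟩ := Finite.exists_ne_map_eq_of_infinite
    fun r : ℤ => (QuotientGroup.mk (⟨_, hx r⟩ : EE (RR b)) : EE (RR b) ⧸ H.normalCore)
  have hy : (⟨_, hx r⟩ : EE (RR b))⁻¹ * ⟨_, hx r'⟩ ∈ H.normalCore := QuotientGroup.eq.1 he
  set y : EE (RR b) := (⟨_, hx r⟩ : EE (RR b))⁻¹ * ⟨_, hx r'⟩ with hyd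
  set z : EE (RR b) := ⟨_, hz r'⟩ with hzd
  have hmem : y * z * y⁻¹ * z⁻¹ ∈ H.normalCore := by
    have h1 : z * y⁻¹ * z⁻¹ ∈ H.normalCore :=
      (Subgroup.normalCore_normal H).conj_mem _ (inv_mem hy) z
    have h2 : y * z * y⁻¹ * z⁻¹ = y * (z * y⁻¹ * z⁻¹) := by group
    rw [h2]
    exact mul_mem hy h1
  refine ⟨y * z * y⁻¹ * z⁻¹, Subgroup.normalCore_le H hmem, ?_⟩
  have hyc : (y : (Matrix (Fin 3) (Fin 3) (MM Bool))ˣ) =
      el i k hki.symm (-eu (m, b) (r, b) c + eu (m, b) (r', b) c) := by
    rw [hyd, Subgroup.coe_mul, Subgroup.coe_inv, el_inv, el_mul]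
  rw [Subgroup.coe_mul, Subgroup.coe_mul, Subgroup.coe_mul, Subgroup.coe_inv, Subgroup.coe_inv,
    hyc, hzd, el_comm hki.symm hkj hij]
  congr 1
  have hne : (r, b) ≠ (r', b) := fun h => hrr (congrArg Prod.fst h)
  rw [add_mul, neg_eu_mul _ _ _ _ hne, eu_mul_same, zero_add, mul_one]

end

end Pool.Agent.N763.OMFCI
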