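import Pool.Agent.N657.QR.Stm

/-!
# Project QR (helper657), leaf CMP (helper763)

The off-diagonal correlations are smallest at the neutral point.
-/

set_option autoImplicit false

namespace Pool.Agent.N763.QRCMP

open Filter Topology
open Pool.Agent.N657.QR

section

variable {V : Type} [Fintype V] [DecidableEq V]

theorem FF_bump (K : Matrix V V ℝ) (w : V → V → ℝ) (ν : V → ℝ) (x y : V) (s : ℝ)
    (ψ : (V → ℤ) → ℝ) : FF K (bump w x y s) ν ψ = FF K w ν ψ - s * cr x y ψ := by
  unfold FF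
  have h : ∑ a, ∑ b, bump w x y s a b * cr a b ψ = (∑ a, ∑ b, w a b * cr a b ψ) + s * cr x y ψ := by
    simp only [bump, add_mul, Finset.sum_add_distrib]
    congr 1
    rw [Finset.sum_eq_single x, Finset.sum_eq_single y]
    · rw [if_pos ⟨rfl, rfl⟩]
    · intro b _ hb
      rw [if_neg (fun h => hb h.2), zero_mul]
    · intro h; exact absurd (Finset.mem_univ _) h
    · intro a _ ha
      refine Finset.sum_eq_zero fun b _ => ?_
      rw [if_neg (fun h => ha h.1), zero_mul]
    · intro h; exact absurd (Finset.mem_univ _) h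
  rw [h]
  ring

theorem bump_nonneg {w : V → V → ℝ} (hw : ∀ x y, 0 ≤ w x y) (x y : V) {s : ℝ} (hs : 0 ≤ s) :
    ∀ a b, 0 ≤ bump w x y s a b := by
  intro a b
  unfold bump
  have h1 := hw a b
  split_ifs
  · linarith
  · linarith

end

theorem main (hB : S_BAS) (hI : S_INC) (hC : S_CPT) (hX : S_EX) (hU : S_UN) (hL : S_LB) :
    S_CMP := by
  intro V _ _ _ K K' w w' ν N Φ Ψ hK hKK hw' hww hconn hΦ hΨ x y
  have hw : ∀ x y, 0 ≤ w x y := fun x y => (hw' x y).trans (hww x y)
  have hK' : K'.PosDef := by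
    have h := hK.add_posSemidef hKK
    rwa [add_sub_cancel] at h
  set s : ℕ → ℝ := fun k => 1 / ((k : ℝ) + 1) with hs
  have hs0 : ∀ k, 0 < s k := fun k => by
    simp only [hs]
    positivity
  have hsl : Tendsto s atTop (𝓝 0) := tendsto_one_div_add_atTop_nhds_zero_nat
  have hex : ∀ k, ∃ F, IsG K (bump w x y (s k)) ν N F := fun k =>
    hX K (bump w x y (s k)) ν N hK (bump_nonneg hw x y (hs0 k).le)
  choose F hF using hex
  have hcrF : ∀ k, |cr x y (F k)| ≤ 1 := by
    intro k
    obtain ⟨h1, h2, h3, h4⟩ := hF k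
    have h5 := hB.crle x y (F k) h1.1
    rwa [h3] at h5
  -- (i)
  have hi : ∀ k, en K w ν N ≤ FF K w ν (F k) ∧
      FF K w ν (F k) = en K (bump w x y (s k)) ν N + s k * cr x y (F k) := by
    intro k
    obtain ⟨h1, h2, h3, h4⟩ := hF k
    have h5 := hL K w ν N (F k) hK.posSemidef hw h1 h2
    rw [h3, mul_one] at h5
    refine ⟨h5, ?_⟩
    rw [FF_bump] at h4
    linarith
  -- (ii)
  have hii : ∀ k, en K' (bump w' x y (s k)) 0 0 ≤ en K' w' 0 0 - s k * cr x y Ψ := by
    intro k
    obtain ⟨h1, h2, h3, h4⟩ := hΨ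
    have h5 := hL K' (bump w' x y (s k)) 0 0 Ψ hK'.posSemidef (bump_nonneg hw' x y (hs0 k).le) h1 h2
    rw [h3, mul_one, FF_bump, h4] at h5
    exact h5
  have hle : ∀ k, cr x y Ψ ≤ cr x y (F k) := by
    intro k
    have h1 := hI K K' w w' ν N x y (s k) hK.posSemidef hK'.posSemidef hKK hw' hww (hs0 k).le
    have h2 := hi k
    have h3 := hii k
    have h4 : s k * cr x y Ψ ≤ s k * cr x y (F k) := by linarith [h2.1, h2.2]
    exact le_of_mul_le_mul_left h4 (hs0 k)
  -- (iii)
  have hup : ∀ k, FF K w ν (F k) ≤ en K w ν N + 2 * s k := by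
    intro k
    obtain ⟨h1, h2, h3, h4⟩ := hΦ
    have h5 := hL K (bump w x y (s k)) ν N Φ hK.posSemidef (bump_nonneg hw x y (hs0 k).le) h1 h2
    rw [h3, mul_one, FF_bump, h4] at h5
    have h6 := hB.crle x y Φ h1.1
    rw [h3] at h6
    have h7 := (abs_le.1 h6).1
    have h8 := (abs_le.1 (hcrF k)).2
    have h9 := (hi k).2
    have h10 : s k * cr x y (F k) ≤ s k * 1 := mul_le_mul_of_nonneg_left h8 (hs0 k).le
    have h11 : s k * (-1) ≤ s k * cr x y Φ := mul_le_mul_of_nonneg_left h7 (hs0 k).le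
    linarith
  have hlim : Tendsto (fun k => FF K w ν (F k)) atTop (𝓝 (en K w ν N)) := by
    refine tendsto_of_tendsto_of_tendsto_of_le_of_le tendsto_const_nhds ?_
      (fun k => (hi k).1) hup
    have h1 : Tendsto (fun k => en K w ν N + 2 * s k) atTop (𝓝 (en K w ν N + 2 * 0)) :=
      tendsto_const_nhds.add (hsl.const_mul 2)
    rwa [mul_zero, add_zero] at h1
  obtain ⟨Φ', hΦ', g, hg, hcr⟩ := hC K w ν N F hK hw (fun k => (hF k).1) (fun k => (hF k).2.1)
    (fun k => (hF k).2.2.1) hlim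
  have heq : cr x y Φ' = cr x y Φ := by
    rcases (hU K w ν N Φ Φ' hK hw hconn hΦ hΦ').2 with h | h
    · have h' : Φ' = Φ := funext h
      rw [h']
    · unfold cr
      refine tsum_congr fun n => ?_
      rw [h, h]
      ring
  rw [← heq]
  exact ge_of_tendsto (hcr x y) (Eventually.of_forall fun k => hle (g k))

end Pool.Agent.N763.QRCMP
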