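import Pool.Agent.H313R3.BK.CF

/-!
# Greedy decomposition of a real number as a sum of two continued fractions: preliminaries
-/

set_option autoImplicit false

open Filter Topology

namespace Pool.Agent.N763.G

open H313R3.BK

/-- iterates of the Gauss map at a continued fraction -/
lemma gauss_iter (x : ℕ → ℕ) (h : ∀ i, 1 ≤ x i) (n : ℕ) :
    (fun y : ℝ => Int.fract (1 / y))^[n] (cf x) = cf (shn n x) := by
  induction n with
  | zero => rfl
  | succ n ih =>
    rw [Function.iterate_succ_apply', ih]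
    have hs : ∀ i, 1 ≤ shn n x i := fun i => h (i + n)
    have hs' : ∀ i, 1 ≤ shn (n + 1) x i := fun i => h (i + (n + 1))
    have e : 1 / (cf (shn n x)) = (x n : ℝ) + cf (shn (n + 1) x) := by
      rw [cf_rec _ hs, sh_shn]
      simp [shn]
    have h1 := cf_pos _ hs'
    have h2 := cf_lt_one _ hs'
    show Int.fract (1 / cf (shn n x)) = _
    rw [e, Int.fract_natCast_add]
    exact Int.fract_eq_self.2 ⟨h1.le, h2⟩

lemma floor_cf (x : ℕ → ℕ) (h : ∀ i, 1 ≤ x i) (n : ℕ) :
    ⌊1 / (fun y : ℝ => Int.fract (1 / y))^[n] (cf x)⌋ = (x n : ℤ) := by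
  rw [gauss_iter x h n]
  have hs : ∀ i, 1 ≤ shn n x i := fun i => h (i + n)
  have hs' : ∀ i, 1 ≤ shn (n + 1) x i := fun i => h (i + (n + 1))
  have e : 1 / (cf (shn n x)) = (x n : ℝ) + cf (shn (n + 1) x) := by
    rw [cf_rec _ hs, sh_shn]
    simp [shn]
  have h1 := cf_pos _ hs'
  have h2 := cf_lt_one _ hs'
  rw [e, Int.floor_eq_iff]
  push_cast
  constructor <;> linarith

lemma tendsto_digits (x : ℕ → ℕ) (h : ∀ i, 1 ≤ x i) (ht : Tendsto x atTop atTop) :
    Tendsto (fun n : ℕ => ⌊1 / ((fun y : ℝ => Int.fract (1 / y))^[n] (cf x))⌋) atTop atTop := by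
  have e : (fun n : ℕ => ⌊1 / ((fun y : ℝ => Int.fract (1 / y))^[n] (cf x))⌋) =
      fun n => (x n : ℤ) := funext (floor_cf x h)
  rw [e]
  exact tendsto_natCast_atTop_atTop.comp ht

/-- convergents: `(q_n, q_{n-1}, p_n, p_{n-1})` -/
structure Cv where
  q : ℤ
  q' : ℤ
  p : ℤ
  p' : ℤ

/-- one more partial quotient -/
def Cv.next (c : Cv) (a : ℤ) : Cv := ⟨a * c.q + c.q', c.q, a * c.p + c.p', c.p⟩

/-- the initial pair -/
def Cv.init : Cv := ⟨1, 0, 0, 1⟩

/-- the convergents of a sequence -/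
def conv (x : ℕ → ℕ) : ℕ → Cv
  | 0 => Cv.init
  | n + 1 => (conv x n).next (x n)

lemma conv_q (x : ℕ → ℕ) (h : ∀ i, 1 ≤ x i) (n : ℕ) :
    (n : ℤ) ≤ (conv x n).q ∧ 1 ≤ (conv x n).q ∧ 0 ≤ (conv x n).q' ∧
      (1 ≤ n → 1 ≤ (conv x n).q') := by
  induction n with
  | zero => exact ⟨by simp [conv, Cv.init], by simp [conv, Cv.init], by simp [conv, Cv.init], by omega⟩
  | succ n ih =>
    obtain ⟨i1, i2, i3, i4⟩ := ih
    have ha : (1 : ℤ) ≤ x n := by exact_mod_cast h n
    have e1 : (conv x (n + 1)).q = x n * (conv x n).q + (conv x n).q' := rfl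
    have e2 : (conv x (n + 1)).q' = (conv x n).q := rfl
    rw [e1, e2]
    have h1 : (conv x n).q ≤ x n * (conv x n).q := by nlinarith
    refine ⟨?_, by linarith, by linarith, fun _ => i2⟩
    rcases Nat.eq_zero_or_pos n with h0 | h0
    · subst h0; push_cast; linarith
    · have := i4 h0
      push_cast
      linarith

lemma conv_val (x : ℕ → ℕ) (h : ∀ i, 1 ≤ x i) (n : ℕ) :
    cf x * ((conv x n).q + (conv x n).q' * cf (shn n x)) =
      (conv x n).p + (conv x n).p' * cf (shn n x) := by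
  induction n with
  | zero =>
    have e0 : shn 0 x = x := rfl
    rw [e0]
    simp [conv, Cv.init]
  | succ n ih =>
    have hs : ∀ i, 1 ≤ shn n x i := fun i => h (i + n)
    have hs' : ∀ i, 1 ≤ shn (n + 1) x i := fun i => h (i + (n + 1))
    have e : cf (shn n x) = 1 / ((x n : ℝ) + cf (shn (n + 1) x)) := by
      rw [cf_rec _ hs, sh_shn]
      simp [shn]
    have h1 := cf_pos _ hs'
    have hx : (1 : ℝ) ≤ x n := by exact_mod_cast h n
    have hne : (x n : ℝ) + cf (shn (n + 1) x) ≠ 0 := by positivity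
    rw [e] at ih
    simp only [conv, Cv.next]
    push_cast
    field_simp at ih
    linear_combination ih

lemma conv_det (x : ℕ → ℕ) (n : ℕ) :
    (conv x n).p' * (conv x n).q - (conv x n).p * (conv x n).q' = (-1) ^ n := by
  induction n with
  | zero => simp [conv, Cv.init]
  | succ n ih =>
    simp only [conv, Cv.next]
    rw [pow_succ, ← ih]
    ring

lemma conv_tendsto (x : ℕ → ℕ) (h : ∀ i, 1 ≤ x i) :
    Tendsto (fun n => ((conv x n).p : ℝ) / (conv x n).q) atTop (𝓝 (cf x)) := by
  have hb : ∀ n : ℕ, 1 ≤ n → |((conv x n).p : ℝ) / (conv x n).q - cf x| ≤ 1 / (n : ℝ) := by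
    intro n hn
    obtain ⟨h1, h2, h3, -⟩ := conv_q x h n
    have hs : ∀ i, 1 ≤ shn n x i := fun i => h (i + n)
    have t0 := cf_pos _ hs
    have t1 := cf_lt_one _ hs
    have hv := conv_val x h n
    have hd : ((conv x n).p' : ℝ) * (conv x n).q - (conv x n).p * (conv x n).q' = (-1) ^ n := by
      exact_mod_cast conv_det x n
    have hn' : (0 : ℝ) < n := by exact_mod_cast hn
    have hq : (n : ℝ) ≤ (conv x n).q := by exact_mod_cast h1
    have hq1 : (1 : ℝ) ≤ (conv x n).q := by exact_mod_cast h2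
    have hq' : (0 : ℝ) ≤ (conv x n).q' := by exact_mod_cast h3
    generalize ((conv x n).q : ℝ) = q at *
    generalize ((conv x n).q' : ℝ) = q' at *
    generalize ((conv x n).p : ℝ) = p at *
    generalize ((conv x n).p' : ℝ) = p' at *
    generalize cf (shn n x) = t at *
    have hden : 0 < q + q' * t := by positivity
    have e : p / q - cf x = -((-1) ^ n * t) / (q * (q + q' * t)) := by
      have e1 : cf x = (p + p' * t) / (q + q' * t) := by
        rw [eq_div_iff hden.ne', hv]
      rw [e1, ← hd]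
      field_simp
      ring
    rw [e, abs_div, abs_neg, abs_mul, abs_pow, abs_neg, abs_one, one_pow, one_mul,
      abs_of_pos t0, abs_of_pos (by positivity : 0 < q * (q + q' * t))]
    rw [div_le_div_iff₀ (by positivity) hn']
    have : n * 1 ≤ q * (q + q' * t) := by
      apply mul_le_mul hq _ zero_le_one (by linarith)
      nlinarith [mul_nonneg hq' t0.le]
    nlinarith
  rw [tendsto_iff_dist_tendsto_zero]
  refine squeeze_zero' (Eventually.of_forall fun _ => dist_nonneg) ?_ tendsto_one_div_atTop_nhds_zero_nat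
  filter_upwards [eventually_ge_atTop 1] with n hn
  rw [Real.dist_eq]
  exact hb n hn

end Pool.Agent.N763.G
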