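import Pool.Agent.N763.GreedyA

/-!
# The greedy algorithm for irrational numbers
-/

set_option autoImplicit false

open Filter Topology

namespace Pool.Agent.N763.G

open H313R3.BK

/-- the bilinear form -/
def Lf (x : ℝ) (q p s r : ℤ) : ℝ := q * s * x - p * s - q * r

lemma Lf_ne {x : ℝ} (hx : Irrational x) {q p s r : ℤ} (hq : 1 ≤ q) (hs : 1 ≤ s) :
    Lf x q p s r ≠ 0 := by
  intro h
  unfold Lf at h
  apply hx
  refine ⟨((p * s + q * r : ℤ) : ℚ) / ((q * s : ℤ) : ℚ), ?_⟩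
  have hq' : (q : ℝ) ≠ 0 := by
    have : (1 : ℝ) ≤ q := by exact_mod_cast hq
    linarith
  have hs' : (s : ℝ) ≠ 0 := by
    have : (1 : ℝ) ≤ s := by exact_mod_cast hs
    linarith
  push_cast
  rw [div_eq_iff (mul_ne_zero hq' hs')]
  linarith

/-- first digit of a step: least integer above `-L(c', d) / L(c, d)` -/
noncomputable def dA (x : ℝ) (c d : Cv) : ℕ := ⌈-(Lf x c.q' c.p' d.q d.p) / Lf x c.q c.p d.q d.p⌉.toNat

/-- second digit of a step -/
noncomputable def dB (x : ℝ) (c d : Cv) : ℕ :=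
  ⌊-(Lf x c.q c.p d.q' d.p') / Lf x c.q c.p d.q d.p⌋.toNat

/-- one double step -/
noncomputable def step (x : ℝ) (S : Cv × Cv) : Cv × Cv :=
  (S.1.next (dA x S.1 S.2), S.2.next (dB x (S.1.next (dA x S.1 S.2)) S.2))

/-- the sequence of states -/
noncomputable def st (x : ℝ) : ℕ → Cv × Cv
  | 0 => (Cv.init, Cv.init)
  | n + 1 => step x (st x n)

/-- the digits -/
noncomputable def da (x : ℝ) (n : ℕ) : ℕ := dA x (st x n).1 (st x n).2
noncomputable def db (x : ℝ) (n : ℕ) : ℕ := dB x ((st x n).1.next (da x n)) (st x n).2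

lemma st_eq (x : ℝ) (n : ℕ) : st x n = (conv (da x) n, conv (db x) n) := by
  induction n with
  | zero => rfl
  | succ n ih =>
    have e1 : (st x (n + 1)).1 = (st x n).1.next (da x n) := rfl
    have e2 : (st x (n + 1)).2 = (st x n).2.next (db x n) := rfl
    apply Prod.ext
    · rw [e1, ih]; rfl
    · rw [e2, ih]; rfl

/-- the invariants; `σ` is the sign -/
structure Inv (x : ℝ) (σ : ℝ) (c d : Cv) : Prop where
  sg : σ = 1 ∨ σ = -1
  q1 : 1 ≤ c.q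
  q0 : 0 ≤ c.q'
  s1 : 1 ≤ d.q
  s0 : 0 ≤ d.q'
  k0 : 0 < σ * Lf x c.q c.p d.q d.p
  k1 : σ * Lf x c.q c.p d.q d.p < 1
  c0 : 0 < -(σ * Lf x c.q c.p d.q' d.p')
  c1 : -(σ * Lf x c.q c.p d.q' d.p') ≤ 1
  e0 : 0 ≤ -(σ * Lf x c.q' c.p' d.q' d.p')
  e1 : -(σ * Lf x c.q' c.p' d.q' d.p') ≤ 1
  dt : (-(σ * Lf x c.q c.p d.q' d.p')) * (-(σ * Lf x c.q' c.p' d.q d.p)) =
    1 - (σ * Lf x c.q c.p d.q d.p) * (-(σ * Lf x c.q' c.p' d.q' d.p'))

/-- the real numbers of a step -/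
lemma ceil_step {k d : ℝ} (hk : 0 < k) (hd : 0 < d) (a : ℕ) (ha : a = ⌈d / k⌉.toNat)
    (hne : (a : ℝ) * k - d ≠ 0) : 1 ≤ a ∧ 0 < a * k - d ∧ a * k - d < k := by
  have h1 : 0 < d / k := by positivity
  have h2 : 0 < ⌈d / k⌉ := Int.ceil_pos.2 h1
  have h3 : (a : ℤ) = ⌈d / k⌉ := by rw [ha]; exact Int.toNat_of_nonneg h2.le
  have h4 : (a : ℝ) = (⌈d / k⌉ : ℝ) := by
    have : ((a : ℤ) : ℝ) = ((⌈d / k⌉ : ℤ) : ℝ) := by rw [h3]
    exact_mod_cast this
  have h5 := Int.le_ceil (d / k)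
  have h6 := Int.ceil_lt_add_one (d / k)
  rw [← h4] at h5 h6
  rw [div_le_iff₀ hk] at h5
  have h7 : (a : ℝ) * k < d + k := by
    have h8 := mul_lt_mul_of_pos_right h6 hk
    rw [add_mul, div_mul_cancel₀ _ hk.ne', one_mul] at h8
    exact h8
  refine ⟨by omega, lt_of_le_of_ne (by linarith) (Ne.symm hne), by linarith⟩

lemma floor_step {k f : ℝ} (hk : 0 < k) (hf : k ≤ f) (b : ℕ) (hb : b = ⌊f / k⌋.toNat)
    (hne : f - (b : ℝ) * k ≠ 0) : 1 ≤ b ∧ 0 < f - b * k ∧ f - b * k < k := by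
  have h1 : 1 ≤ f / k := by rw [le_div_iff₀ hk]; linarith
  have h2 : 1 ≤ ⌊f / k⌋ := Int.le_floor.2 (by exact_mod_cast h1)
  have h3 : (b : ℤ) = ⌊f / k⌋ := by rw [hb]; exact Int.toNat_of_nonneg (by omega)
  have h4 : (b : ℝ) = (⌊f / k⌋ : ℝ) := by
    have : ((b : ℤ) : ℝ) = ((⌊f / k⌋ : ℤ) : ℝ) := by rw [h3]
    exact_mod_cast this
  have h5 := Int.floor_le (f / k)
  have h6 := Int.lt_floor_add_one (f / k)
  rw [← h4] at h5 h6
  rw [le_div_iff₀ hk] at h5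
  rw [div_lt_iff₀ hk] at h6
  refine ⟨by omega, lt_of_le_of_ne (by linarith) (Ne.symm hne), by linarith⟩

lemma Lf_next1 (x : ℝ) (c : Cv) (a s r : ℤ) :
    Lf x (c.next a).q (c.next a).p s r = a * Lf x c.q c.p s r + Lf x c.q' c.p' s r := by
  simp only [Lf, Cv.next]; push_cast; ring

lemma Lf_next2 (x : ℝ) (d : Cv) (b q p : ℤ) :
    Lf x q p (d.next b).q (d.next b).p = b * Lf x q p d.q d.p + Lf x q p d.q' d.p' := by
  simp only [Lf, Cv.next]; push_cast; ring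

/-- the quantities of one double step -/
lemma step_inv {x : ℝ} (hx : Irrational x) {σ : ℝ} {c d : Cv} (h : Inv x σ c d) :
    1 ≤ dA x c d ∧ 1 ≤ dB x (c.next (dA x c d)) d ∧
    0 < σ * Lf x (c.next (dA x c d)).q (c.next (dA x c d)).p d.q d.p ∧
    σ * Lf x (c.next (dA x c d)).q (c.next (dA x c d)).p d.q d.p < σ * Lf x c.q c.p d.q d.p ∧
    (-σ) * Lf x (c.next (dA x c d)).q (c.next (dA x c d)).p
      (d.next (dB x (c.next (dA x c d)) d)).q (d.next (dB x (c.next (dA x c d)) d)).p <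
      σ * Lf x (c.next (dA x c d)).q (c.next (dA x c d)).p d.q d.p ∧
    Inv x (-σ) (c.next (dA x c d)) (d.next (dB x (c.next (dA x c d)) d)) := by
  obtain ⟨sg, q1, q0, s1, s0, k0, k1, c0, c1, e0, e1, dt⟩ := h
  have hσ2 : σ * σ = 1 := by rcases sg with h | h <;> rw [h] <;> norm_num
  have hσ0 : σ ≠ 0 := by rcases sg with h | h <;> rw [h] <;> norm_num
  -- names
  obtain ⟨K, hK⟩ : ∃ K, K = σ * Lf x c.q c.p d.q d.p := ⟨_, rfl⟩
  obtain ⟨C, hC⟩ : ∃ C, C = -(σ * Lf x c.q c.p d.q' d.p') := ⟨_, rfl⟩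
  obtain ⟨D, hD⟩ : ∃ D, D = -(σ * Lf x c.q' c.p' d.q d.p) := ⟨_, rfl⟩
  obtain ⟨E, hE⟩ : ∃ E, E = -(σ * Lf x c.q' c.p' d.q' d.p') := ⟨_, rfl⟩
  rw [← hK] at k0 k1
  rw [← hC] at c0 c1
  rw [← hE] at e0 e1
  rw [← hC, ← hD, ← hK, ← hE] at dt
  have hD0 : 0 < D := by
    have : 0 < C * D := by rw [dt]; nlinarith
    exact (pos_iff_pos_of_mul_pos this).1 c0
  -- first digit
  obtain ⟨a, ha⟩ : ∃ a, a = dA x c d := ⟨_, rfl⟩
  have ha2 : a = ⌈D / K⌉.toNat := by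
    rw [ha, dA]
    congr 2
    rw [hD, hK, neg_div, neg_div, mul_div_mul_left _ _ hσ0]
  rw [← ha]
  have hK1 : σ * Lf x (c.next a).q (c.next a).p d.q d.p = a * K - D := by
    rw [Lf_next1, hK, hD]; push_cast; ring
  have q1' : 1 ≤ (c.next a).q ∨ (a : ℤ) < 1 := by
    by_cases h1 : (a : ℤ) < 1
    · exact Or.inr h1
    · left
      show 1 ≤ (a : ℤ) * c.q + c.q'
      nlinarith
  have hane : (a : ℝ) * K - D ≠ 0 := by
    rw [← hK1]
    have h1 : 0 < D / K := by positivity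
    have h2 : 0 < ⌈D / K⌉ := Int.ceil_pos.2 h1
    have h3 : 1 ≤ a := by omega
    refine mul_ne_zero hσ0 (Lf_ne hx ?_ s1)
    rcases q1' with h | h
    · exact h
    · omega
  obtain ⟨a1, a2, a3⟩ := ceil_step k0 hD0 a ha2 hane
  have q1'' : 1 ≤ (c.next a).q := by
    rcases q1' with h | h
    · exact h
    · omega
  -- second digit
  obtain ⟨K1, hK1'⟩ : ∃ K1, K1 = a * K - D := ⟨_, rfl⟩
  rw [← hK1'] at hK1 a2 a3
  obtain ⟨b, hb⟩ : ∃ b, b = dB x (c.next a) d := ⟨_, rfl⟩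
  obtain ⟨f, hf⟩ : ∃ f, f = a * C + E := ⟨_, rfl⟩
  have hf2 : -(σ * Lf x (c.next a).q (c.next a).p d.q' d.p') = f := by
    rw [Lf_next1, hf, hC, hE]; push_cast; ring
  have hb2 : b = ⌊f / K1⌋.toNat := by
    rw [hb, dB]
    congr 2
    rw [← hf2, ← hK1, neg_div, neg_div, mul_div_mul_left _ _ hσ0]
  have haR : (1 : ℝ) ≤ a := by exact_mod_cast a1
  -- `f K = 1 + C K1`
  have hfK : f * K = 1 + C * K1 := by
    rw [hf, hK1']; linear_combination dt
  have hfK1 : K1 ≤ f := by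
    have h1 : K1 * K ≤ f * K := by
      rw [hfK]
      nlinarith [mul_pos c0 a2]
    exact le_of_mul_le_mul_right h1 k0
  have hK2 : (-σ) * Lf x (c.next a).q (c.next a).p (d.next b).q (d.next b).p = f - b * K1 := by
    rw [Lf_next2, ← hf2, ← hK1]; push_cast; ring
  rw [← hb]
  have s1' : 1 ≤ (d.next b).q ∨ (b : ℤ) < 1 := by
    by_cases h1 : (b : ℤ) < 1
    · exact Or.inr h1
    · left
      show 1 ≤ (b : ℤ) * d.q + d.q'
      nlinarith
  have hbne : f - (b : ℝ) * K1 ≠ 0 := by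
    rw [← hK2]
    have h1 : 1 ≤ f / K1 := by rw [le_div_iff₀ a2]; linarith
    have h2 : 1 ≤ ⌊f / K1⌋ := Int.le_floor.2 (by exact_mod_cast h1)
    have h3 : 1 ≤ b := by omega
    refine mul_ne_zero (neg_ne_zero.2 hσ0) (Lf_ne hx q1'' ?_)
    rcases s1' with h | h
    · exact h
    · omega
  obtain ⟨b1, b2, b3⟩ := floor_step a2 hfK1 b hb2 hbne
  have s1'' : 1 ≤ (d.next b).q := by
    rcases s1' with h | h
    · exact h
    · omega
  have bR : (1 : ℝ) ≤ b := by exact_mod_cast b1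
  have n11 : (c.next a).q' = c.q := rfl
  have n12 : (c.next a).p' = c.p := rfl
  have n21 : (d.next b).q' = d.q := rfl
  have n22 : (d.next b).p' = d.p := rfl
  refine ⟨a1, b1, by rw [hK1]; exact a2, by rw [hK1, ← hK]; exact a3, by rw [hK2, hK1]; exact b3, ?_⟩
  constructor
  · rcases sg with h | h <;> rw [h] <;> simp
  · exact q1''
  · rw [n11]; omega
  · exact s1''
  · rw [n21]; omega
  · rw [hK2]; exact b2
  · rw [hK2]; linarith
  · rw [n21, n22, neg_mul, neg_neg, hK1]; exact a2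
  · rw [n21, n22, neg_mul, neg_neg, hK1]; linarith
  · rw [n11, n12, n21, n22, neg_mul, neg_neg, ← hK]; exact k0.le
  · rw [n11, n12, n21, n22, neg_mul, neg_neg, ← hK]; exact k1.le
  · have e3 : σ * Lf x c.q c.p (d.next b).q (d.next b).p = b * K - C := by
      rw [Lf_next2, hK, hC]; push_cast; ring
    have g1 : -σ * Lf x (c.next a).q (c.next a).p d.q d.p = -K1 := by rw [← hK1]; ring
    have g2 : -σ * Lf x c.q c.p (d.next b).q (d.next b).p = -(b * K - C) := by rw [← e3]; ring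
    have g3 : -σ * Lf x c.q c.p d.q d.p = -K := by rw [hK]; ring
    rw [hK2, n11, n12, n21, n22, g1, g2, g3]
    linear_combination hfK

end Pool.Agent.N763.G
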