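import Pool.Agent.N763.GreedyB

/-!
# The greedy algorithm for irrational numbers: convergence
-/

set_option autoImplicit false

open Filter Topology

namespace Pool.Agent.N763.G

open H313R3.BK

noncomputable def Kf (x : ℝ) (n : ℕ) : ℝ :=
  (-1) ^ n * Lf x (st x n).1.q (st x n).1.p (st x n).2.q (st x n).2.p

noncomputable def Mf (x : ℝ) (n : ℕ) : ℝ :=
  (-1) ^ n * Lf x ((st x n).1.next (da x n)).q ((st x n).1.next (da x n)).p (st x n).2.q (st x n).2.p

variable {x : ℝ}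

lemma inv_zero (h0 : 0 < x) (h1 : x < 1) : Inv x 1 Cv.init Cv.init := by
  constructor <;> simp [Cv.init, Lf, h0, h1]

lemma inv_n (hx : Irrational x) (h0 : 0 < x) (h1 : x < 1) (n : ℕ) :
    Inv x ((-1) ^ n) (st x n).1 (st x n).2 := by
  induction n with
  | zero =>
    rw [pow_zero]
    exact inv_zero h0 h1
  | succ n ih =>
    have h := (step_inv hx ih).2.2.2.2.2
    have e : (-1 : ℝ) ^ (n + 1) = -(-1) ^ n := by rw [pow_succ]; ring
    rw [e]
    exact h

lemma facts (hx : Irrational x) (h0 : 0 < x) (h1 : x < 1) (n : ℕ) :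
    1 ≤ da x n ∧ 1 ≤ db x n ∧ 0 < Kf x n ∧ Kf x n < 1 ∧ 0 < Mf x n ∧ Mf x n < Kf x n ∧
      Kf x (n + 1) < Mf x n := by
  have hI := inv_n hx h0 h1 n
  obtain ⟨s1, s2, s3, s4, s5, s6⟩ := step_inv hx hI
  refine ⟨s1, s2, hI.k0, hI.k1, s3, s4, ?_⟩
  have e : (-1 : ℝ) ^ (n + 1) = -(-1) ^ n := by rw [pow_succ]; ring
  unfold Kf Mf
  rw [e]
  exact s5

lemma relA (hx : Irrational x) (h0 : 0 < x) (h1 : x < 1) (n : ℕ) :
    (da x (n + 1) * Kf x (n + 1) - Mf x (n + 1)) * Mf x n = 1 - Kf x (n + 1) * Kf x n := by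
  have hI := (inv_n hx h0 h1 (n + 1)).dt
  have e : (-1 : ℝ) ^ (n + 1) = -(-1) ^ n := by rw [pow_succ]; ring
  have n11 : (st x (n + 1)).1.q' = (st x n).1.q := rfl
  have n12 : (st x (n + 1)).1.p' = (st x n).1.p := rfl
  have n21 : (st x (n + 1)).2.q' = (st x n).2.q := rfl
  have n22 : (st x (n + 1)).2.p' = (st x n).2.p := rfl
  have c1 : (st x (n + 1)).1 = (st x n).1.next (da x n) := rfl
  have eC : -((-1) ^ (n + 1) * Lf x (st x (n + 1)).1.q (st x (n + 1)).1.p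
      (st x (n + 1)).2.q' (st x (n + 1)).2.p') = Mf x n := by
    unfold Mf
    rw [n21, n22, c1, e]; ring
  have eE : -((-1) ^ (n + 1) * Lf x (st x (n + 1)).1.q' (st x (n + 1)).1.p'
      (st x (n + 1)).2.q' (st x (n + 1)).2.p') = Kf x n := by
    unfold Kf
    rw [n11, n12, n21, n22, e]; ring
  have eD : -((-1) ^ (n + 1) * Lf x (st x (n + 1)).1.q' (st x (n + 1)).1.p'
      (st x (n + 1)).2.q (st x (n + 1)).2.p) = da x (n + 1) * Kf x (n + 1) - Mf x (n + 1) := by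
    unfold Mf Kf
    rw [Lf_next1]; push_cast; ring
  rw [eC, eD, eE] at hI
  unfold Kf at hI ⊢
  linarith

lemma relB (hx : Irrational x) (h0 : 0 < x) (h1 : x < 1) (n : ℕ) :
    (Kf x (n + 2) + db x (n + 1) * Mf x (n + 1)) * Kf x (n + 1) = 1 + Mf x n * Mf x (n + 1) := by
  have hA := relA hx h0 h1 n
  have e : (-1 : ℝ) ^ (n + 1) = -(-1) ^ n := by rw [pow_succ]; ring
  have e2 : (-1 : ℝ) ^ (n + 2) = (-1) ^ n := by rw [pow_succ, pow_succ]; ring
  have key : Kf x (n + 2) + db x (n + 1) * Mf x (n + 1) = da x (n + 1) * Mf x n + Kf x n := by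
    have f1 : Kf x (n + 2) = (-1) ^ (n + 2) * Lf x ((st x (n + 1)).1.next (da x (n + 1))).q
      ((st x (n + 1)).1.next (da x (n + 1))).p ((st x (n + 1)).2.next (db x (n + 1))).q
      ((st x (n + 1)).2.next (db x (n + 1))).p := rfl
    have f2 : Mf x n = (-1) ^ n * Lf x (st x (n + 1)).1.q (st x (n + 1)).1.p
      (st x (n + 1)).2.q' (st x (n + 1)).2.p' := rfl
    have f3 : Kf x n = (-1) ^ n * Lf x (st x (n + 1)).1.q' (st x (n + 1)).1.p'
      (st x (n + 1)).2.q' (st x (n + 1)).2.p' := rfl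
    rw [f1, f2, f3, Mf, Lf_next2, e2, e]
    rw [Lf_next1 x (st x (n + 1)).1 (da x (n + 1)) (st x (n + 1)).2.q' (st x (n + 1)).2.p']
    push_cast
    ring
  rw [key]
  linear_combination hA

lemma Kf_anti (hx : Irrational x) (h0 : 0 < x) (h1 : x < 1) : Antitone (Kf x) := by
  apply antitone_nat_of_succ_le
  intro n
  obtain ⟨-, -, -, -, -, h, h'⟩ := facts hx h0 h1 n
  linarith

lemma Kf_tendsto (hx : Irrational x) (h0 : 0 < x) (h1 : x < 1) :
    Tendsto (Kf x) atTop (𝓝 0) := by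
  have hbdd : BddBelow (Set.range (Kf x)) := ⟨0, by
    rintro _ ⟨n, rfl⟩
    exact (facts hx h0 h1 n).2.2.1.le⟩
  obtain ⟨l, hl⟩ : ∃ l, l = ⨅ n, Kf x n := ⟨_, rfl⟩
  have hlim : Tendsto (Kf x) atTop (𝓝 l) := by
    rw [hl]; exact tendsto_atTop_ciInf (Kf_anti hx h0 h1) hbdd
  have hle : ∀ n, l ≤ Kf x n := fun n => by rw [hl]; exact ciInf_le hbdd n
  have hl0 : 0 ≤ l := ge_of_tendsto' hlim fun n => (facts hx h0 h1 n).2.2.1.le
  rcases hl0.eq_or_lt with h | hlpos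
  · rw [h]; exact hlim
  exfalso
  have hlim1 : Tendsto (fun n => Kf x (n + 1)) atTop (𝓝 l) :=
    hlim.comp (tendsto_add_atTop_nat 1)
  have hM : Tendsto (Mf x) atTop (𝓝 l) :=
    tendsto_of_tendsto_of_tendsto_of_le_of_le hlim1 hlim
      (fun n => (facts hx h0 h1 n).2.2.2.2.2.2.le) (fun n => (facts hx h0 h1 n).2.2.2.2.2.1.le)
  have hM1 : Tendsto (fun n => Mf x (n + 1)) atTop (𝓝 l) :=
    hM.comp (tendsto_add_atTop_nat 1)
  have hMl : ∀ n, l < Mf x n := fun n =>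
    lt_of_le_of_lt (hle (n + 1)) (facts hx h0 h1 n).2.2.2.2.2.2
  -- formula for the digits
  have hdig : ∀ n, (da x (n + 1) : ℝ) =
      (1 - Kf x (n + 1) * Kf x n + Mf x (n + 1) * Mf x n) / (Kf x (n + 1) * Mf x n) := by
    intro n
    have k1 := (facts hx h0 h1 (n + 1)).2.2.1
    have k2 := (facts hx h0 h1 n).2.2.2.2.1
    rw [eq_div_iff (by positivity)]
    linear_combination relA hx h0 h1 n
  have hlt : ∀ n, (da x (n + 1) : ℝ) < 1 / l ^ 2 := by
    intro n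
    have k1 := (facts hx h0 h1 (n + 1)).2.2.1
    have k2 := (facts hx h0 h1 n).2.2.2.2.1
    have k3 := (facts hx h0 h1 (n + 1)).2.2.2.2.2.1
    have k3' := (facts hx h0 h1 (n + 1)).2.2.2.2.1
    have k4 := (facts hx h0 h1 n).2.2.2.2.2.1
    have k5 := hMl n
    have k6 := hle (n + 1)
    rw [hdig n, div_lt_div_iff₀ (by positivity) (by positivity)]
    have m1 : Mf x (n + 1) * Mf x n < Kf x (n + 1) * Kf x n :=
      mul_lt_mul'' k3 k4 k3'.le k2.le
    have m2 : l ^ 2 < Kf x (n + 1) * Mf x n := by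
      rw [sq]
      exact mul_lt_mul' k6 k5 hlpos.le k1
    have m3 : (1 - Kf x (n + 1) * Kf x n + Mf x (n + 1) * Mf x n) * l ^ 2 < 1 * l ^ 2 :=
      mul_lt_mul_of_pos_right (by linarith) (by positivity)
    linarith
  have hle' : ∀ n, (da x (n + 1) : ℝ) ≤ (⌈1 / l ^ 2⌉ : ℝ) - 1 := by
    intro n
    have h2 : ((da x (n + 1) : ℤ) : ℝ) < 1 / l ^ 2 := by exact_mod_cast hlt n
    have h3 : (da x (n + 1) : ℤ) < ⌈1 / l ^ 2⌉ := Int.lt_ceil.2 h2
    have h4 : (da x (n + 1) : ℤ) ≤ ⌈1 / l ^ 2⌉ - 1 := by omega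
    exact_mod_cast h4
  have hconv : Tendsto (fun n => (da x (n + 1) : ℝ)) atTop (𝓝 (1 / l ^ 2)) := by
    have h2 : Tendsto (fun n => (1 - Kf x (n + 1) * Kf x n + Mf x (n + 1) * Mf x n) /
        (Kf x (n + 1) * Mf x n)) atTop (𝓝 ((1 - l * l + l * l) / (l * l))) := by
      refine Tendsto.div ?_ (hlim1.mul hM) (by positivity)
      exact (tendsto_const_nhds.sub (hlim1.mul hlim)).add (hM1.mul hM)
    have e3 : (1 - l * l + l * l) / (l * l) = 1 / l ^ 2 := by
      rw [sq]; congr 1; ring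
    rw [e3] at h2
    exact h2.congr fun n => (hdig n).symm
  have h4 := le_of_tendsto' hconv hle'
  have h5 := Int.ceil_lt_add_one (1 / l ^ 2)
  linarith

lemma dig_lower (hx : Irrational x) (h0 : 0 < x) (h1 : x < 1) (n : ℕ) :
    1 / Kf x (n + 1) - 1 ≤ da x (n + 1) ∧ 1 / Kf x (n + 1) - 1 ≤ db x (n + 1) := by
  have hA := relA hx h0 h1 n
  have hB := relB hx h0 h1 n
  obtain ⟨-, -, k0, k1, m0, m1, km⟩ := facts hx h0 h1 n
  obtain ⟨-, -, k0', k1', m0', m1', km'⟩ := facts hx h0 h1 (n + 1)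
  obtain ⟨-, -, k0'', k1'', -, -, -⟩ := facts hx h0 h1 (n + 2)
  have a0 : (0 : ℝ) ≤ da x (n + 1) := by positivity
  have b0 : (0 : ℝ) ≤ db x (n + 1) := by positivity
  have e : 1 / Kf x (n + 1) - 1 = (1 - Kf x (n + 1)) / Kf x (n + 1) := by
    field_simp
  rw [e, div_le_iff₀ k0', div_le_iff₀ k0']
  constructor
  · have h2 : (da x (n + 1) : ℝ) * Kf x (n + 1) * Mf x n ≤ da x (n + 1) * Kf x (n + 1) * 1 := by
      gcongr
      linarith
    have h3 : 0 < Mf x (n + 1) * Mf x n := mul_pos m0' m0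
    have h4 : Kf x (n + 1) * Kf x n ≤ Kf x (n + 1) * 1 := by gcongr
    nlinarith
  · have h2 : (db x (n + 1) : ℝ) * Kf x (n + 1) * Mf x (n + 1) ≤
        db x (n + 1) * Kf x (n + 1) * 1 := by
      gcongr
      linarith
    have h3 : 0 < Mf x n * Mf x (n + 1) := mul_pos m0 m0'
    have h4 : Kf x (n + 1) * Kf x (n + 2) ≤ Kf x (n + 1) * 1 := by gcongr
    nlinarith

lemma tendsto_dig (hx : Irrational x) (h0 : 0 < x) (h1 : x < 1) :
    Tendsto (da x) atTop atTop ∧ Tendsto (db x) atTop atTop := by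
  have h2 : Tendsto (fun n => Kf x (n + 1)) atTop (𝓝[>] 0) := by
    rw [tendsto_nhdsWithin_iff]
    exact ⟨(Kf_tendsto hx h0 h1).comp (tendsto_add_atTop_nat 1),
      Eventually.of_forall fun n => (facts hx h0 h1 (n + 1)).2.2.1⟩
  have h3 : Tendsto (fun n => 1 / Kf x (n + 1) - 1) atTop atTop := by
    simp only [one_div]
    exact tendsto_atTop_add_const_right _ (-1) (tendsto_inv_nhdsGT_zero.comp h2)
  constructor
  · rw [← tendsto_add_atTop_iff_nat 1, ← tendsto_natCast_atTop_iff (R := ℝ)]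
    exact tendsto_atTop_mono (fun n => (dig_lower hx h0 h1 n).1) h3
  · rw [← tendsto_add_atTop_iff_nat 1, ← tendsto_natCast_atTop_iff (R := ℝ)]
    exact tendsto_atTop_mono (fun n => (dig_lower hx h0 h1 n).2) h3

lemma sum_eq (hx : Irrational x) (h0 : 0 < x) (h1 : x < 1) : x = cf (da x) + cf (db x) := by
  have ha : ∀ i, 1 ≤ da x i := fun i => (facts hx h0 h1 i).1
  have hb : ∀ i, 1 ≤ db x i := fun i => (facts hx h0 h1 i).2.1
  have t1 := (conv_tendsto (da x) ha).add (conv_tendsto (db x) hb)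
  have t2 : Tendsto (fun n => x - (((conv (da x) n).p : ℝ) / (conv (da x) n).q +
      ((conv (db x) n).p : ℝ) / (conv (db x) n).q)) atTop (𝓝 0) := by
    have hK := Kf_tendsto hx h0 h1
    refine squeeze_zero_norm ?_ hK
    intro n
    have e1 : (st x n).1 = conv (da x) n := by rw [st_eq]
    have e2 : (st x n).2 = conv (db x) n := by rw [st_eq]
    have q1 : (1 : ℝ) ≤ (conv (da x) n).q := by exact_mod_cast (conv_q (da x) ha n).2.1
    have s1 : (1 : ℝ) ≤ (conv (db x) n).q := by exact_mod_cast (conv_q (db x) hb n).2.1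
    have e3 : x - (((conv (da x) n).p : ℝ) / (conv (da x) n).q +
      ((conv (db x) n).p : ℝ) / (conv (db x) n).q) =
      Lf x (st x n).1.q (st x n).1.p (st x n).2.q (st x n).2.p /
        ((conv (da x) n).q * (conv (db x) n).q) := by
      rw [e1, e2, Lf]
      field_simp
      ring
    have e4 : |Lf x (st x n).1.q (st x n).1.p (st x n).2.q (st x n).2.p| = Kf x n := by
      have h2 : |Kf x n| = Kf x n := abs_of_pos (facts hx h0 h1 n).2.2.1
      rw [← h2, Kf, abs_mul, abs_pow, abs_neg, abs_one, one_pow, one_mul]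
    rw [e3, Real.norm_eq_abs, abs_div, e4, abs_of_pos (by positivity :
      (0 : ℝ) < (conv (da x) n).q * (conv (db x) n).q)]
    apply div_le_self (facts hx h0 h1 n).2.2.1.le
    nlinarith
  have t3 := t1.const_sub x
  have := tendsto_nhds_unique t2 t3
  linarith

theorem main_irrational (hx : Irrational x) (h0 : 0 < x) (h1 : x < 1) :
    ∃ u v : ℕ → ℕ, (∀ i, 1 ≤ u i) ∧ (∀ i, 1 ≤ v i) ∧ Tendsto u atTop atTop ∧
      Tendsto v atTop atTop ∧ x = cf u + cf v :=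
  ⟨da x, db x, fun i => (facts hx h0 h1 i).1, fun i => (facts hx h0 h1 i).2.1,
    (tendsto_dig hx h0 h1).1, (tendsto_dig hx h0 h1).2, sum_eq hx h0 h1⟩

end Pool.Agent.N763.G
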