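import Pool.Agent.N763.GreedyC

/-!
# The rational case
-/

set_option autoImplicit false

open Filter Topology

namespace Pool.Agent.N763.G

open H313R3.BK

/-- Prepending a list of digits to a sequence. -/
def app : List ℕ → (ℕ → ℕ) → ℕ → ℕ
  | [], u => u
  | c :: w, u => fun n => match n with
    | 0 => c
    | n + 1 => app w u n

/-- finite continued fraction with tail `t` -/
noncomputable def val : List ℕ → ℝ → ℝ
  | [], t => t
  | c :: w, t => 1 / ((c : ℝ) + val w t)

lemma app_good {w : List ℕ} {u : ℕ → ℕ} (hw : ∀ c ∈ w, 1 ≤ c) (hu : ∀ i, 1 ≤ u i) :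
    ∀ i, 1 ≤ app w u i := by
  induction w with
  | nil => exact hu
  | cons c w ih =>
    intro i
    cases i with
    | zero => exact hw c (by simp)
    | succ i => exact ih (fun e he => hw e (by simp [he])) i

lemma cf_app {w : List ℕ} {u : ℕ → ℕ} (hw : ∀ c ∈ w, 1 ≤ c) (hu : ∀ i, 1 ≤ u i) :
    cf (app w u) = val w (cf u) := by
  induction w with
  | nil => rfl
  | cons c w ih =>
    have hw' : ∀ e ∈ w, 1 ≤ e := fun e he => hw e (by simp [he])
    have h1 := app_good hw hu
    rw [cf_rec _ h1]
    have e1 : sh (app (c :: w) u) = app w u := rfl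
    have e2 : app (c :: w) u 0 = c := rfl
    rw [e1, e2, ih hw']
    rfl

lemma tendsto_app {w : List ℕ} {u : ℕ → ℕ} (hu : Tendsto u atTop atTop) :
    Tendsto (app w u) atTop atTop := by
  induction w with
  | nil => exact hu
  | cons c w ih =>
    rw [← tendsto_add_atTop_iff_nat 1]
    exact ih

/-- Formula for `val`, with the determinant. -/
lemma val_formula (w : List ℕ) (hw : ∀ c ∈ w, 1 ≤ c) :
    ∃ q q' p p' : ℕ, 1 ≤ q ∧ p' * (q : ℤ) - p * q' = (-1) ^ w.length ∧
      ∀ t : ℝ, 0 ≤ t → val w t = (p + p' * t) / (q + q' * t) := by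
  induction w with
  | nil => exact ⟨1, 0, 0, 1, le_rfl, by simp, fun t _ => by simp [val]⟩
  | cons c w ih =>
    obtain ⟨q, q', p, p', h1, h2, h3⟩ := ih (fun e he => hw e (by simp [he]))
    have hc : 1 ≤ c := hw c (by simp)
    refine ⟨c * q + p, c * q' + p', q, q', by nlinarith, ?_, fun t ht => ?_⟩
    · push_cast
      rw [List.length_cons, pow_succ, ← h2]
      ring
    · have hq : (1 : ℝ) ≤ q := by exact_mod_cast h1
      have hc' : (1 : ℝ) ≤ c := by exact_mod_cast hc
      simp only [val]
      rw [h3 t ht]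
      have hd : (0 : ℝ) < q + q' * t := by positivity
      have hd2 : (0 : ℝ) < c + (p + p' * t) / (q + q' * t) := by positivity
      push_cast
      have hd3 : (0 : ℝ) < c * q + p + (c * q' + p') * t := by positivity
      rw [div_eq_div_iff hd2.ne' hd3.ne']
      field_simp
      ring

/-- Every rational number in `(0, 1)` has expansions of odd and of even length. -/
lemma exists_expansion : ∀ T P : ℕ, 0 < P → P < T →
    (∃ w : List ℕ, (∀ c ∈ w, 1 ≤ c) ∧ Odd w.length ∧ val w 0 = (P : ℝ) / T) ∧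
    (∃ w : List ℕ, (∀ c ∈ w, 1 ≤ c) ∧ Even w.length ∧ val w 0 = (P : ℝ) / T) := by
  intro T
  induction T using Nat.strong_induction_on with
  | _ T ih =>
    intro P hP hPT
    have hTP := Nat.div_add_mod T P
    have hPR : (0 : ℝ) < P := by exact_mod_cast hP
    have hTR : (0 : ℝ) < T := by exact_mod_cast (hP.trans hPT)
    have hc1 : 1 ≤ T / P := (Nat.one_le_div_iff hP).2 hPT.le
    rcases Nat.eq_zero_or_pos (T % P) with h0 | h0
    · -- `P / T = 1 / c`
      rw [h0, add_zero] at hTP
      obtain ⟨c, hc⟩ : ∃ c, c = T / P := ⟨_, rfl⟩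
      rw [← hc] at hTP hc1
      have hc2 : 2 ≤ c := by
        rcases Nat.lt_or_ge c 2 with h | h
        · have : c = 1 := by omega
          subst this
          omega
        · exact h
      obtain ⟨e, rfl⟩ : ∃ e, c = e + 1 := ⟨c - 1, by omega⟩
      have he : (1 : ℝ) ≤ e := by exact_mod_cast (by omega : 1 ≤ e)
      have hT : (T : ℝ) = P * (e + 1) := by rw [← hTP]; push_cast; ring
      refine ⟨⟨[e + 1], by simp, by simp, ?_⟩, ⟨[e, 1], ?_, by simp, ?_⟩⟩
      · simp only [val]
        rw [hT]; push_cast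
        field_simp
        ring
      · intro d hd
        simp at hd
        omega
      · simp only [val]
        rw [hT]; push_cast
        field_simp
        ring
    · have hlt : T % P < P := Nat.mod_lt _ hP
      obtain ⟨⟨w1, a1, a2, a3⟩, ⟨w2, b1, b2, b3⟩⟩ := ih P hPT (T % P) h0 hlt
      have hT : (T : ℝ) = P * (T / P : ℕ) + (T % P : ℕ) := by exact_mod_cast hTP.symm
      have key : (P : ℝ) / T = 1 / ((T / P : ℕ) + ((T % P : ℕ) : ℝ) / P) := by
        have h3 : (0 : ℝ) < (T / P : ℕ) + ((T % P : ℕ) : ℝ) / P := by positivity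
        rw [div_eq_div_iff hTR.ne' h3.ne', hT]
        field_simp
      refine ⟨⟨(T / P) :: w2, ?_, ?_, ?_⟩, ⟨(T / P) :: w1, ?_, ?_, ?_⟩⟩
      · intro d hd
        rcases List.mem_cons.1 hd with h | h
        · rw [h]; exact hc1
        · exact b1 d h
      · rw [List.length_cons]; exact b2.add_one
      · simp only [val]; rw [b3, key]
      · intro d hd
        rcases List.mem_cons.1 hd with h | h
        · rw [h]; exact hc1
        · exact a1 d h
      · rw [List.length_cons]; exact a2.add_one
      · simp only [val]; rw [a3, key]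

/-- Scaling a continued fraction. -/
lemma ap_scale (M : ℕ) (hM : 1 ≤ M) : ∀ (n : ℕ) (u v : ℕ → ℕ), (∀ i, 1 ≤ u i) → (∀ i, 1 ≤ v i) →
    ((∀ i, u i = if Even i then M * v i else v i / M) → (∀ i, Odd i → v i = M * u i) →
      (M : ℝ) * ap n u = ap n v) := by
  intro n
  induction n using Nat.strong_induction_on with
  | _ n ih =>
    intro u v hu hv h1 h2
    have hMR : (0 : ℝ) < M := by exact_mod_cast hM
    match n, ih with
    | 0, _ => simp [ap]
    | 1, _ =>
      have e0 : u 0 = M * v 0 := by rw [h1 0]; simp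
      have hv0 : (1 : ℝ) ≤ v 0 := by exact_mod_cast hv 0
      simp only [ap, add_zero]
      rw [e0]; push_cast
      field_simp
    | m + 2, ih =>
      have e0 : u 0 = M * v 0 := by rw [h1 0]; simp
      have e1 : v 1 = M * u 1 := h2 1 (by decide)
      have hv0 : (1 : ℝ) ≤ v 0 := by exact_mod_cast hv 0
      have hu1 : (1 : ℝ) ≤ u 1 := by exact_mod_cast hu 1
      have hI := ih m (by omega) (sh (sh u)) (sh (sh v)) (fun i => hu _) (fun i => hv _)
        (fun i => by
          have := h1 (i + 1 + 1)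
          simp only [sh]
          rw [this]
          have : Even (i + 1 + 1) ↔ Even i := by
            rw [Nat.even_add_one, Nat.even_add_one, not_not]
          simp only [this]) (fun i hi => by
          simp only [sh]
          exact h2 _ (by
            have : Odd (i + 1 + 1) ↔ Odd i := by
              rw [Nat.odd_add_one, Nat.odd_add_one, not_not]
            exact this.2 hi))
      have m1 := (ap_mem m (sh (sh u)) (fun i => hu _)).1
      have m2 := (ap_mem m (sh (sh v)) (fun i => hv _)).1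
      have s1 : sh u 0 = u 1 := rfl
      have s2 : sh v 0 = v 1 := rfl
      simp only [ap]
      rw [s1, s2, e0, e1, ← hI]
      push_cast
      have n1 : (0 : ℝ) < u 1 + ap m (sh (sh u)) := by positivity
      have n2 : (0 : ℝ) < M * u 1 + M * ap m (sh (sh u)) := by positivity
      have n3 : (0 : ℝ) < M * v 0 + 1 / (u 1 + ap m (sh (sh u))) := by positivity
      have n4 : (0 : ℝ) < v 0 + 1 / (M * u 1 + M * ap m (sh (sh u))) := by positivity
      rw [mul_one_div, div_eq_div_iff n3.ne' n4.ne']
      field_simp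

/-- the sequences -/
def ua (M : ℕ) (i : ℕ) : ℕ := if Even i then M * (i + 1) else i + 1
def va (M : ℕ) (i : ℕ) : ℕ := if Even i then i + 1 else M * (i + 1)

lemma scale (M : ℕ) (hM : 1 ≤ M) : (M : ℝ) * cf (ua M) = cf (va M) := by
  have hu : ∀ i, 1 ≤ ua M i := by
    intro i; unfold ua; split_ifs <;> nlinarith
  have hv : ∀ i, 1 ≤ va M i := by
    intro i; unfold va; split_ifs <;> nlinarith
  have t1 := (cf_tendsto (ua M) hu).const_mul (M : ℝ)
  have t2 := cf_tendsto (va M) hv
  refine tendsto_nhds_unique (t1.congr ?_) t2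
  intro n
  apply ap_scale M hM n (ua M) (va M) hu hv
  · intro i
    unfold ua va
    by_cases h : Even i
    · simp [h]
    · simp only [h, if_false]
      rw [Nat.mul_div_cancel_left _ (by omega)]
  · intro i hi
    have h : ¬ Even i := Nat.not_even_iff_odd.2 hi
    unfold ua va
    simp [h]

lemma tendsto_ua (M : ℕ) (hM : 1 ≤ M) : Tendsto (ua M) atTop atTop := by
  refine tendsto_atTop_mono (f := fun i => i) (fun i => ?_) tendsto_id
  unfold ua; split_ifs <;> nlinarith

lemma tendsto_va (M : ℕ) (hM : 1 ≤ M) : Tendsto (va M) atTop atTop := by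
  refine tendsto_atTop_mono (f := fun i => i) (fun i => ?_) tendsto_id
  unfold va; split_ifs <;> nlinarith

/-- Rational numbers. -/
theorem main_rational (T P : ℕ) (hP : 0 < P) (hPT : P ≤ T) :
    ∃ u v : ℕ → ℕ, (∀ i, 1 ≤ u i) ∧ (∀ i, 1 ≤ v i) ∧ Tendsto u atTop atTop ∧
      Tendsto v atTop atTop ∧ (P : ℝ) / T = cf u + cf v := by
  obtain ⟨w, w1, w2, w3⟩ : ∃ w : List ℕ, (∀ c ∈ w, 1 ≤ c) ∧ Odd w.length ∧
      val w 0 = (P : ℝ) / T := by
    rcases hPT.eq_or_lt with h | h
    · refine ⟨[1], by simp, by simp, ?_⟩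
      have : (T : ℝ) ≠ 0 := by exact_mod_cast (by omega : T ≠ 0)
      rw [h]
      simp [val, this]
    · exact (exists_expansion T P hP h).1
  obtain ⟨q, q', p, p', h1, h2, h3⟩ := val_formula w w1
  rw [w2.neg_one_pow] at h2
  -- the tails
  obtain ⟨M, hM⟩ : ∃ M, M = q ^ 2 := ⟨_, rfl⟩
  have hM1 : 1 ≤ M := by rw [hM]; exact Nat.one_le_pow _ _ h1
  have hu : ∀ i, 1 ≤ ua M i := by
    intro i; unfold ua; split_ifs <;> nlinarith
  have hv : ∀ i, 1 ≤ va M i := by
    intro i; unfold va; split_ifs <;> nlinarith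
  -- first number: `w` followed by `1` and `ua`
  have hu' : ∀ i, 1 ≤ app [1] (ua M) i := app_good (by simp) hu
  have hv' : ∀ i, 1 ≤ app [M + q * q'] (va M) i := app_good (by
    intro c hc
    simp at hc
    rw [hc]; nlinarith) hv
  refine ⟨app w (app [1] (ua M)), app [M + q * q'] (va M), app_good w1 hu', hv',
    tendsto_app (tendsto_app (tendsto_ua M hM1)), tendsto_app (tendsto_va M hM1), ?_⟩
  have c0 := cf_pos _ hu
  have hqR : (1 : ℝ) ≤ q := by exact_mod_cast h1
  have e1 : cf (app [1] (ua M)) = 1 / (1 + cf (ua M)) := by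
    rw [cf_app (by simp) hu]; simp [val]
  have e2 : cf (app [M + q * q'] (va M)) = 1 / (M + q * q' + M * cf (ua M)) := by
    rw [cf_app (by
      intro c hc
      simp at hc
      rw [hc]; nlinarith) hv, scale M hM1]
    simp [val]
  have t0 : 0 ≤ cf (app [1] (ua M)) := (cf_pos _ hu').le
  rw [cf_app w1 hu', e2, ← w3, h3 0 le_rfl, h3 _ t0, e1, hM]
  have h2' : (p' : ℝ) * q - p * q' = -1 := by exact_mod_cast h2
  have hp' : (p' : ℝ) = (p * q' - 1) / q := by
    field_simp
    linarith
  have n1 : (0 : ℝ) < 1 + cf (ua (q ^ 2)) := by rw [← hM]; positivity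
  rw [← hM]
  generalize cf (ua M) = z at *
  have n3 : (0 : ℝ) < q + q' * (1 / (1 + z)) := by positivity
  have n4 : (0 : ℝ) < M + q * q' + M * z := by
    have : (0 : ℝ) < M := by exact_mod_cast hM1
    positivity
  have hMR : (M : ℝ) = q ^ 2 := by rw [hM]; push_cast; ring
  have hmain : ((p : ℝ) + p' * 0) / (q + q' * 0) - (p + p' * (1 / (1 + z))) / (q + q' * (1 / (1 + z))) =
      1 / (M + q * q' + M * z) := by
    have n5 : (0 : ℝ) < q ^ 2 + q * q' + q ^ 2 * z := by rw [← hMR]; exact n4
    rw [hMR, hp']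
    field_simp
    ring
  linarith

end Pool.Agent.N763.G
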